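import Pool.Agent.Helper79_MT4.Stmt

/-! Squad MT4, module GR1. -/

set_option autoImplicit false

namespace Pool.Agent.MT4.H5

open Module LinearMap Polynomial Pool.Agent.MT4

universe u v w

theorem gr1 (hO : OrbStmt.{u, v, w}) (hR : RkStmt.{u, v}) (hB : BasStmt.{u, v, w}) :
    Gr1Stmt.{u, v, w} := by
  intro K V ι _ _ _ _ _ ψ e σ g N hblk hN i j hij h1
  obtain ⟨-, hOR, -, -, -⟩ := hO K V ι ψ e σ g N hblk hN
  have hcomm : ∀ M ∈ Orb e g N, ∀ k, M * e k = e k * M := fun M hM k =>
    hblk.comm M (hOR M hM).1 k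
  have hrk : ∀ M ∈ Orb e g N, ∀ k, RankOne (M * e k) := fun M hM k => (hOR M hM).2.2 k
  -- elements of the algebra commute with the idempotents
  have hac : ∀ b ∈ Algebra.adjoin K (Orb e g N), ∀ k, b * e k = e k * b := by
    intro b hb k
    induction hb using Algebra.adjoin_induction with
    | mem x hx => exact hcomm x hx k
    | algebraMap r => exact Algebra.commutes r (e k)
    | add x y _ _ hx hy => rw [add_mul, mul_add, hx, hy]
    | mul x y _ _ hx hy => rw [mul_assoc, hy, ← mul_assoc, hx, mul_assoc]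
  have hac' : ∀ b ∈ Algebra.adjoin K (Orb e g N), ∀ k x, b (e k x) = e k (b x) := fun b hb k x =>
    LinearMap.congr_fun (hac b hb k) x
  have hOa : ∀ M ∈ Orb e g N, M ∈ Algebra.adjoin K (Orb e g N) := fun M hM =>
    Algebra.subset_adjoin hM
  have hid : ∀ k x, e k (e k x) = e k x := fun k x => LinearMap.congr_fun (hblk.idem k) x
  have hor : ∀ k l, k ≠ l → ∀ x, e k (e l x) = 0 := fun k l hkl x =>
    LinearMap.congr_fun (hblk.orth k l hkl) x
  obtain ⟨-, -, -, A, hA, B, hB', hne⟩ := hB K V ι ψ e σ g N hblk hN i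
  have hnej : trace K V (A * B * e j) ≠ 0 := by
    have h2 := h1 1 (one_mem _) A hA B hB'
    rw [mul_one] at h2
    rwa [← h2]
  have hex : ∀ k, trace K V (A * B * e k) ≠ 0 → ∃ x, e k x = x ∧ A (B x) ≠ 0 := by
    intro k hk
    by_contra hcon
    push Not at hcon
    apply hk
    have h2 : A * B * e k = 0 := by
      ext x
      exact hcon (e k x) (hid k x)
    rw [h2, map_zero]
  obtain ⟨xi, hxi, hxi0⟩ := hex i hne
  obtain ⟨xj, hxj, hxj0⟩ := hex j hnej
  -- the main claim
  have claim : ∀ (k l : ι) (y z : V), k ≠ l → e k y = y → A (B y) ≠ 0 → e l z = z →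
      trace K V (A * B * e l) ≠ 0 →
      (∀ b ∈ Algebra.adjoin K (Orb e g N), trace K V (A * B * b * e k) =
        trace K V (A * B * b * e l)) →
      ∀ c ∈ Algebra.adjoin K (Orb e g N), c (A (B y)) = 0 → c (A (B z)) = 0 := by
    intro k l y z hkl hy hy0 hz htl htr c hc hcy
    have hAB : A * B ∈ Algebra.adjoin K (Orb e g N) := mul_mem (hOa A hA) (hOa B hB')
    -- `c A B e_k = 0`
    have hz1 : c * (A * B * e k) = 0 := by
      ext x
      obtain ⟨-, -, -, h4⟩ := hR K V (A * e k) (A * e k) (A * e k) (hrk A hA k) (hrk A hA k)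
        (hrk A hA k)
      have e1 : (A * e k) (B y) = A (B y) := by
        rw [Module.End.mul_apply, ← hac' B (hOa B hB') k y, hy]
      obtain ⟨c', hc'⟩ := h4 (B y) (B x) (by rw [e1]; exact hy0)
      have e2 : (A * B * e k) x = c' • A (B y) := by
        rw [← e1, ← hc', Module.End.mul_apply, Module.End.mul_apply, Module.End.mul_apply,
          hac' B (hOa B hB') k x]
      rw [Module.End.mul_apply, e2, map_smul, hcy, smul_zero]
      rfl
    -- all traces vanish
    have hz2 : ∀ b ∈ Algebra.adjoin K (Orb e g N), trace K V (b * c * (A * B * e l)) = 0 := by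
      intro b hb
      have hbc : b * c ∈ Algebra.adjoin K (Orb e g N) := mul_mem hb hc
      have e1 : trace K V (b * c * (A * B * e l)) = trace K V (A * B * (b * c) * e l) := by
        rw [LinearMap.trace_mul_comm, mul_assoc (A * B), mul_assoc (A * B), hac (b * c) hbc l]
      have e2 : trace K V (b * c * (A * B * e k)) = trace K V (A * B * (b * c) * e k) := by
        rw [LinearMap.trace_mul_comm, mul_assoc (A * B), mul_assoc (A * B), hac (b * c) hbc k]
      rw [e1, ← htr (b * c) hbc, ← e2, mul_assoc b c, hz1, mul_zero, map_zero]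
    obtain ⟨x0, φ, hx0, hφ, hAe⟩ := hrk A hA l
    set κ : V →ₗ[K] K := φ ∘ₗ (B * e l) with hκ
    have hABe : ∀ x, (A * B * e l) x = κ x • x0 := by
      intro x
      have h5 : (A * B * e l) x = (A * e l) ((B * e l) x) := by
        rw [Module.End.mul_apply, Module.End.mul_apply, Module.End.mul_apply,
          Module.End.mul_apply, ← hac' B (hOa B hB') l (e l x), hid]
      rw [h5, hAe, LinearMap.smulRight_apply, hκ, LinearMap.comp_apply]
    have hABe' : A * B * e l = κ.smulRight x0 := by
      ext x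
      rw [hABe, LinearMap.smulRight_apply]
    have hκ0 : κ ≠ 0 := by
      intro h5
      apply htl
      rw [hABe', h5, LinearMap.zero_smulRight, map_zero]
    have hκe : ∀ x, κ (e l x) = κ x := by
      intro x
      simp only [hκ, LinearMap.comp_apply, Module.End.mul_apply, hid]
    have hex0 : e l x0 = x0 := by
      obtain ⟨t, ht⟩ : ∃ t, φ t ≠ 0 := by
        by_contra hcon
        push Not at hcon
        exact hφ (LinearMap.ext hcon)
      have h5 : (A * e l) t = φ t • x0 := by rw [hAe, LinearMap.smulRight_apply]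
      have h6 : e l ((A * e l) t) = (A * e l) t := by
        rw [Module.End.mul_apply, ← hac' A (hOa A hA) l (e l t), hid]
      rw [h5, map_smul] at h6
      exact smul_right_injective V ht h6
    have hz3 : ∀ b ∈ Algebra.adjoin K (Orb e g N), κ (b (c x0)) = 0 := by
      intro b hb
      have h5 := hz2 b hb
      have h6 : b * c * (A * B * e l) = κ.smulRight (b (c x0)) := by
        ext x
        rw [Module.End.mul_apply, hABe, map_smul, LinearMap.smulRight_apply,
          Module.End.mul_apply]
      rw [h6, LinearMap.trace_smulRight] at h5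
      exact h5
    -- irreducibility
    let U : Submodule K V :=
      { carrier := {y | e l y = y ∧ ∀ b ∈ Algebra.adjoin K (Orb e g N), κ (b y) = 0}
        zero_mem' := ⟨map_zero _, fun b _ => by rw [map_zero, map_zero]⟩
        add_mem' := by
          rintro a b ⟨h5, h6⟩ ⟨h7, h8⟩
          exact ⟨by rw [map_add, h5, h7], fun b' hb' => by
            rw [map_add, map_add, h6 b' hb', h8 b' hb', add_zero]⟩
        smul_mem' := by
          rintro r a ⟨h5, h6⟩
          exact ⟨by rw [map_smul, h5], fun b' hb' => by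
            rw [map_smul, map_smul, h6 b' hb', smul_zero]⟩ }
    obtain ⟨-, -, h7, -⟩ := hB K V ι ψ e σ g N hblk hN l
    have hcx0 : c x0 = 0 := by
      rcases h7 U (fun x hx => hx.1) (by
        rintro M hM x ⟨h8, h9⟩
        refine ⟨?_, fun b hb => ?_⟩
        · rw [← hac' M (hOa M hM) l x, h8]
        · exact h9 (b * M) (mul_mem hb (hOa M hM))) with h8 | h8
      · exact h8 (c x0) ⟨by rw [← hac' c hc l x0, hex0], hz3⟩
      · exfalso
        apply hκ0
        ext x
        have h9 := (h8 x).2 1 (one_mem _)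
        rw [Module.End.one_apply, hκe] at h9
        rw [h9]
        rfl
    have h8 : A (B z) = κ z • x0 := by
      rw [← hABe z, Module.End.mul_apply, Module.End.mul_apply, hz]
    rw [h8, map_smul, hcx0, smul_zero]
  -- the graph
  set w : V := A (B xi) + A (B xj) with hw
  have hewi : e i w = A (B xi) := by
    rw [hw, map_add, ← hac' A (hOa A hA) i, ← hac' B (hOa B hB') i, hxi,
      ← hac' A (hOa A hA) i, ← hac' B (hOa B hB') i, ← hxj, hor i j hij, map_zero, map_zero,
      add_zero]
  have hewj : e j w = A (B xj) := by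
    rw [hw, map_add, ← hac' A (hOa A hA) j, ← hac' B (hOa B hB') j,
      ← hac' A (hOa A hA) j, ← hac' B (hOa B hB') j, hxj, ← hxi, hor j i hij.symm, map_zero,
      map_zero, zero_add]
  have hcw : ∀ c : End K V, c w = c (A (B xi)) + c (A (B xj)) := fun c => by rw [hw, map_add]
  refine ⟨(Subalgebra.toSubmodule (Algebra.adjoin K (Orb e g N))).map
    (LinearMap.applyₗ w), ?_, ?_, ?_, ?_, w, ?_, ?_⟩
  · rintro _ ⟨c, hc, rfl⟩
    have hc' : c ∈ Algebra.adjoin K (Orb e g N) := hc
    rw [LinearMap.applyₗ_apply_apply, ← hac' c hc' i, ← hac' c hc' j, hewi, hewj, hcw]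
  · rintro M hM _ ⟨c, hc, rfl⟩
    have hc' : c ∈ Algebra.adjoin K (Orb e g N) := hc
    have hMc : M * c ∈ Algebra.adjoin K (Orb e g N) := mul_mem (hOa M hM) hc'
    exact ⟨M * c, hMc, rfl⟩
  · rintro _ ⟨c, hc, rfl⟩ h0
    have hc' : c ∈ Algebra.adjoin K (Orb e g N) := hc
    rw [LinearMap.applyₗ_apply_apply, ← hac' c hc' i, hewi] at h0
    rw [LinearMap.applyₗ_apply_apply, hcw, h0, zero_add]
    exact claim i j xi xj hij hxi hxi0 hxj hnej
      (fun b hb => h1 b hb A hA B hB') c hc' h0
  · rintro _ ⟨c, hc, rfl⟩ h0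
    have hc' : c ∈ Algebra.adjoin K (Orb e g N) := hc
    rw [LinearMap.applyₗ_apply_apply, ← hac' c hc' j, hewj] at h0
    rw [LinearMap.applyₗ_apply_apply, hcw, h0, add_zero]
    exact claim j i xj xi hij.symm hxj hxj0 hxi hne
      (fun b hb => (h1 b hb A hA B hB').symm) c hc' h0
  · exact ⟨1, one_mem (Algebra.adjoin K (Orb e g N)), rfl⟩
  · intro h0
    apply hxi0
    rw [← hewi, h0, map_zero]

end Pool.Agent.MT4.H5
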