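import Pool.Agent.Helper79_MT4.Stmt

/-! Squad MT4, module WORDS. -/

set_option autoImplicit false

namespace Pool.Agent.MT4.H5

open Module LinearMap Polynomial Pool.Agent.MT4

universe u v w

theorem words (hO : OrbStmt.{u, v, w}) (hC : CurStmt.{u, v}) (hI : IrrStmt.{u, v, w})
    (hR : RkStmt.{u, v}) (hB : BasStmt.{u, v, w}) : WordsStmt.{u, v, w} := by
  intro K V ι _ _ _ _ _ ψ e σ g N hblk hN i j h1 h2
  obtain ⟨-, hOR, -, -, -⟩ := hO K V ι ψ e σ g N hblk hN
  have hcomm : ∀ M ∈ Orb e g N, ∀ k, M * e k = e k * M := fun M hM k =>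
    hblk.comm M (hOR M hM).1 k
  have hrk : ∀ M ∈ Orb e g N, ∀ k, RankOne (M * e k) := fun M hM k => (hOR M hM).2.2 k
  obtain ⟨hc1, hc2, hc3, hc4, hc5, hc6, hc7⟩ := hC K V
  have hpoly : ∀ (b : End K V) (k : ι), PolyOn (fun A B C : End K V =>
      trace K V (A * B * C * b * e k)) := by
    intro b k p q r hp hq hr
    exact hc7 (trace K V) _ (hc4 _ _ (hc4 _ _ (hc4 _ _ (hc4 _ _ hp hq) hr) (hc1 b)) (hc1 (e k)))
  -- the main step
  have key : ∀ b : End K V, (∀ k, b * e k = e k * b) →
      (∀ A ∈ Orb e g N, ∀ B ∈ Orb e g N, trace K V (A * B * b * e i) =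
        trace K V (A * B * b * e j)) →
      ∀ A ∈ Orb e g N, ∀ B ∈ Orb e g N, ∀ C ∈ Orb e g N,
        trace K V (A * B * C * b * e i) = trace K V (A * B * C * b * e j) := by
    intro b hb hCb
    have hfact : ∀ k, ∀ A ∈ Orb e g N, ∀ B ∈ Orb e g N, ∀ C ∈ Orb e g N,
        trace K V (A * B * C * b * e k) * trace K V (A * C * e k) =
          trace K V (A * B * C * e k) * trace K V (A * C * b * e k) := by
      intro k A hA B hB' C hC'
      obtain ⟨-, -, h3, -⟩ := hR K V (A * e k) (C * e k) (C * e k) (hrk A hA k) (hrk C hC' k)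
        (hrk C hC' k)
      have h4 := h3 B b
      have e1 : A * e k * B * (C * e k) * b = A * B * C * b * e k := by
        calc A * e k * B * (C * e k) * b = A * (e k * B) * (C * e k) * b := by
              simp only [mul_assoc]
          _ = A * (B * e k) * (C * e k) * b := by rw [← hcomm B hB' k]
          _ = A * B * (e k * C) * e k * b := by simp only [mul_assoc]
          _ = A * B * (C * e k) * e k * b := by rw [← hcomm C hC' k]
          _ = A * B * C * (e k * e k) * b := by simp only [mul_assoc]
          _ = A * B * C * (e k * b) := by rw [hblk.idem k]; simp only [mul_assoc]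
          _ = A * B * C * b * e k := by rw [← hb k]; simp only [mul_assoc]
      have e2 : A * e k * (C * e k) = A * C * e k := by
        calc A * e k * (C * e k) = A * (e k * C) * e k := by simp only [mul_assoc]
          _ = A * (C * e k) * e k := by rw [← hcomm C hC' k]
          _ = A * C * (e k * e k) := by simp only [mul_assoc]
          _ = A * C * e k := by rw [hblk.idem k]
      have e3 : A * e k * B * (C * e k) = A * B * C * e k := by
        calc A * e k * B * (C * e k) = A * (e k * B) * (C * e k) := by simp only [mul_assoc]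
          _ = A * (B * e k) * (C * e k) := by rw [← hcomm B hB' k]
          _ = A * B * (e k * C) * e k := by simp only [mul_assoc]
          _ = A * B * (C * e k) * e k := by rw [← hcomm C hC' k]
          _ = A * B * C * (e k * e k) := by simp only [mul_assoc]
          _ = A * B * C * e k := by rw [hblk.idem k]
      have e4 : A * C * e k * b = A * C * b * e k := by
        rw [mul_assoc (A * C), ← hb k]; simp only [mul_assoc]
      rw [e1, e2, e3, e4] at h4
      exact h4
    have hprod : ∀ A ∈ Orb e g N, ∀ B ∈ Orb e g N, ∀ C ∈ Orb e g N,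
        (trace K V (A * B * C * b * e i) - trace K V (A * B * C * b * e j)) *
          trace K V (A * C * e i) = 0 := by
      intro A hA B hB' C hC'
      have h3 := hfact i A hA B hB' C hC'
      have h4 := hfact j A hA B hB' C hC'
      rw [← h1 A hA C hC', ← h2 A hA B hB' C hC', ← hCb A hA C hC'] at h4
      rw [sub_mul, h3, h4, sub_self]
    have hp1 : PolyOn (fun A B C : End K V =>
        trace K V (A * B * C * b * e i) - trace K V (A * B * C * b * e j)) := by
      intro p q r hp hq hr
      obtain ⟨P, hP⟩ := hpoly b i p q r hp hq hr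
      obtain ⟨Q, hQ⟩ := hpoly b j p q r hp hq hr
      refine ⟨P - Q, fun s => ?_⟩
      have h3 := hP s
      have h4 := hQ s
      simp only at h3 h4 ⊢
      rw [h3, h4, Polynomial.eval_sub]
    have hp2 : PolyOn (fun A _ C : End K V => trace K V (A * C * e i)) := by
      intro p q r hp _ hr
      exact hc7 (trace K V) _ (hc4 _ _ (hc4 _ _ hp hr) (hc1 (e i)))
    rcases hI K V ι ψ e σ g N hblk hN _ _ hp1 hp2 hprod with h3 | h3
    · intro A hA B hB' C hC'
      exact sub_eq_zero.1 (h3 A hA B hB' C hC')
    · obtain ⟨-, -, -, A, hA, B, hB', hne⟩ := hB K V ι ψ e σ g N hblk hN i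
      exact absurd (h3 A hA A hA B hB') hne
  -- products
  have hmon : ∀ b ∈ Submonoid.closure (Orb e g N), (∀ k, b * e k = e k * b) ∧
      ∀ A ∈ Orb e g N, ∀ B ∈ Orb e g N, trace K V (A * B * b * e i) =
        trace K V (A * B * b * e j) := by
    intro b hb
    induction hb using Submonoid.closure_induction_left with
    | one =>
      refine ⟨fun k => by rw [one_mul, mul_one], fun A hA B hB' => ?_⟩
      rw [mul_one]
      exact h1 A hA B hB'
    | mul_left x hx y hy ih =>
      refine ⟨fun k => ?_, fun A hA B hB' => ?_⟩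
      · rw [mul_assoc, ih.1 k, ← mul_assoc, hcomm x hx k, mul_assoc]
      · have h3 := key y ih.1 ih.2 A hA B hB' x hx
        rw [← mul_assoc]
        exact h3
  intro b hb A hA B hB'
  rw [← Subalgebra.mem_toSubmodule, Algebra.adjoin_eq_span] at hb
  induction hb using Submodule.span_induction with
  | mem x hx => exact (hmon x hx).2 A hA B hB'
  | zero => simp
  | add x y _ _ ihx ihy => rw [mul_add, add_mul, add_mul, map_add, map_add, ihx, ihy]
  | smul c x _ ih =>
    rw [mul_smul_comm, smul_mul_assoc, smul_mul_assoc, map_smul, map_smul, ih]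

end Pool.Agent.MT4.H5
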